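import Mathlib

namespace Pool.Agent.H.MP_315024_al

section basic
variable {S E : Type*} [CommRing S] [Ring E] [Algebra S E]

def Nm (x y : E) : ℕ → E → E
  | 0, t => t
  | b + 1, t => x * Nm x y b t + t * y ^ (b + 1)

lemma Nm_add (x y : E) (b : ℕ) (s t : E) : Nm x y b (s + t) = Nm x y b s + Nm x y b t := by
  induction b with
  | zero => rfl
  | succ b ih => simp only [Nm, ih]; noncomm_ring

lemma Nm_smul (x y : E) (b : ℕ) (c : S) (t : E) : Nm x y b (c • t) = c • Nm x y b t := by
  induction b with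
  | zero => rfl
  | succ b ih => simp only [Nm, ih, mul_smul_comm, smul_mul_assoc, smul_add]

def NmL (S : Type*) [CommRing S] [Algebra S E] (x y : E) (b : ℕ) : E →ₗ[S] E where
  toFun := Nm x y b
  map_add' := Nm_add x y b
  map_smul' := Nm_smul x y b

lemma Nm_sub (x y : E) (b : ℕ) (s t : E) : Nm x y b (s - t) = Nm x y b s - Nm x y b t :=
  map_sub (NmL ℤ x y b) s t

lemma Nm_zero (x y : E) (b : ℕ) : Nm x y b 0 = 0 := map_zero (NmL ℤ x y b)

lemma Nm_tel (x y : E) (b : ℕ) (t : E) :
    x * Nm x y b t - Nm x y b t * y = x ^ (b + 1) * t - t * y ^ (b + 1) := by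
  induction b with
  | zero => simp [Nm]
  | succ b ih =>
    have : x * Nm x y (b + 1) t - Nm x y (b + 1) t * y =
        x * (x * Nm x y b t - Nm x y b t * y) + x * t * y ^ (b + 1) - t * (y ^ (b + 1) * y) := by
      simp only [Nm]; noncomm_ring
    rw [this, ih, pow_succ' x (b + 1), pow_succ y (b + 1)]
    noncomm_ring

lemma Nm_ad (x y : E) (b : ℕ) (t : E) :
    Nm x y b (x * t - t * y) = x ^ (b + 1) * t - t * y ^ (b + 1) := by
  induction b with
  | zero => simp [Nm]
  | succ b ih =>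
    simp only [Nm, ih]
    rw [pow_succ' x (b + 1), pow_succ' y (b + 1)]
    noncomm_ring

lemma pow_comm' {w x : E} {c : S} (h : w * x = c • (x * w)) (n : ℕ) :
    w * x ^ n = c ^ n • (x ^ n * w) := by
  induction n with
  | zero => simp
  | succ n ih =>
    rw [pow_succ, ← mul_assoc, ih, smul_mul_assoc, mul_assoc, h, mul_smul_comm, smul_smul,
      ← pow_succ, mul_assoc]

lemma pow_comm'' {w x : E} {c : S} (h : w * x = c • (x * w)) (n : ℕ) :
    w ^ n * x = c ^ n • (x * w ^ n) := by
  induction n with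
  | zero => simp
  | succ n ih =>
    rw [pow_succ, mul_assoc, h, mul_smul_comm, ← mul_assoc, ih, smul_mul_assoc, smul_smul,
      mul_assoc, pow_succ' c]

lemma Nm_conj {x p w : E} {c : S} (hp : x * p = c • (p * x)) (hw : w * x = c • (x * w))
    (b : ℕ) (t : E) : Nm x x b (p * t * w) = c ^ b • (p * Nm x x b t * w) := by
  induction b with
  | zero => simp [Nm]
  | succ b ih =>
    simp only [Nm, ih]
    rw [mul_smul_comm, ← mul_assoc, ← mul_assoc, hp, mul_assoc (p * t), pow_comm' hw]
    simp only [mul_smul_comm, smul_mul_assoc, smul_smul, mul_add, add_mul, smul_add, mul_assoc,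
      pow_succ]

lemma Nm_tw {x z : E} {r : S} (h : x * z = r • (z * x)) (b : ℕ) (t : E) :
    Nm x x b t * z - r ^ (b + 1) • (z * Nm x x b t) =
      Nm x (r • x) b (t * z - r • (z * t)) := by
  induction b with
  | zero => simp [Nm]
  | succ b ih =>
    simp only [Nm, ← ih]
    have h1 := pow_comm'' h (b + 1)
    have h2 : x * (z * Nm x x b t) = r • (z * (x * Nm x x b t)) := by
      rw [← mul_assoc, h, smul_mul_assoc, mul_assoc]
    rw [add_mul, mul_assoc t, h1, mul_sub, mul_smul_comm, mul_smul_comm, h2, smul_pow]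
    simp only [mul_add, smul_add, sub_mul, mul_smul_comm, smul_mul_assoc, smul_smul, smul_sub,
      mul_assoc, pow_succ]
    abel

lemma Nm_scale (x : E) (l : S) (b : ℕ) (t : E) :
    Nm (l • x) (l • x) b t = l ^ b • Nm x x b t := by
  induction b with
  | zero => simp [Nm]
  | succ b ih =>
    simp only [Nm, ih, smul_pow, mul_smul_comm, smul_mul_assoc, smul_smul, smul_add, pow_succ,
      mul_comm l]

lemma Nm_map {E' : Type*} [Ring E'] {Φ : Type*} [FunLike Φ E E'] [RingHomClass Φ E E'] (f : Φ)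
    (x y : E) (b : ℕ) (t : E) : f (Nm x y b t) = Nm (f x) (f y) b (f t) := by
  induction b with
  | zero => rfl
  | succ b ih => simp only [Nm, map_add, map_mul, map_pow, ih]

variable (b : ℕ → ℕ) (r : ℕ → ℕ → S)

def Rel (k : ℕ) (X : ℕ → E) : Prop :=
  (∀ i < k, X i ^ (b i + 1) = 0) ∧ ∀ j < k, ∀ i < j, X j * X i = r i j • (X i * X j)

def Coc (k : ℕ) (X Y : ℕ → E) : Prop :=
  (∀ i < k, Nm (X i) (X i) (b i) (Y i) = 0) ∧
    ∀ j < k, ∀ i < j, Y j * X i + X j * Y i = r i j • (Y i * X j + X i * Y j)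

def Inner (k : ℕ) (X Y : ℕ → E) : Prop := ∃ φ : E, ∀ i < k, Y i = X i * φ - φ * X i

def Rigid (k : ℕ) (X : ℕ → E) : Prop := ∀ Y, Coc b r k X Y → Inner k X Y

def Hig (k : ℕ) (X : ℕ → E) : Prop :=
  ∃ t : E, (∀ i < k, r i k ^ b k • (t * X i) = X i * t) ∧ Nm (X k) (X k) (b k) t = 1

variable {b r}

lemma Rel.mono {k : ℕ} {X : ℕ → E} (h : Rel b r (k + 1) X) : Rel b r k X :=
  ⟨fun i hi => h.1 i (by omega), fun j hj => h.2 j (by omega)⟩

lemma Coc.sub {k : ℕ} {X Y Z : ℕ → E} (h : Coc b r k X Y) (h' : Coc b r k X Z) :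
    Coc b r k X (Y - Z) := by
  refine ⟨fun i hi => by rw [Pi.sub_apply, Nm_sub, h.1 i hi, h'.1 i hi, sub_zero],
    fun j hj i hi => ?_⟩
  have a := h.2 j hj i hi
  have c := h'.2 j hj i hi
  simp only [Pi.sub_apply, sub_mul, mul_sub, smul_add, smul_sub] at *
  linear_combination (norm := abel1) a - c

lemma Coc.conj {k : ℕ} {X Y : ℕ → E} (h : Coc b r k X Y) {p w : E} {c : ℕ → S}
    (hp : ∀ i < k, X i * p = c i • (p * X i)) (hw : ∀ i < k, w * X i = c i • (X i * w)) :
    Coc b r k X (fun i => c i • (p * Y i * w)) := by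
  refine ⟨fun i hi => ?_, fun j hj i hi => ?_⟩
  · rw [Nm_smul, Nm_conj (hp i hi) (hw i hi), h.1 i hi]; simp
  · have a := congrArg (fun z => (c i * c j) • (p * z * w)) (h.2 j hj i hi)
    have e1 : ∀ i < k, ∀ (z : E), p * z * w * X i = c i • (p * (z * X i) * w) := by
      intro i hi z
      rw [mul_assoc, hw i hi, mul_smul_comm]; simp only [mul_assoc]
    have e2 : ∀ i < k, ∀ (z : E), X i * (p * z * w) = c i • (p * (X i * z) * w) := by
      intro i hi z
      rw [← mul_assoc, ← mul_assoc, hp i hi, smul_mul_assoc, smul_mul_assoc]; simp only [mul_assoc]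
    simp only [smul_mul_assoc, mul_smul_comm, e1 i (by omega), e1 j hj, e2 i (by omega), e2 j hj,
      mul_add, add_mul, smul_add, smul_smul] at a ⊢
    convert a using 2 <;> ring_nf

lemma Rel.scale {k : ℕ} {X : ℕ → E} (h : Rel b r k X) (l : ℕ → S) :
    Rel b r k (fun i => l i • X i) := by
  refine ⟨fun i hi => by simp [smul_pow, h.1 i hi], fun j hj i hi => ?_⟩
  simp only [smul_mul_assoc, mul_smul_comm, h.2 j hj i hi, smul_smul]
  ring_nf

end basic

section field
variable {K E : Type*} [Field K] [Ring E] [Algebra K E] {b : ℕ → ℕ} {r : ℕ → ℕ → K}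

lemma Rigid.scale {k : ℕ} {X : ℕ → E} (h : Rigid b r k X) (l : ℕ → K) (hl : ∀ i < k, l i ≠ 0) :
    Rigid b r k (fun i => l i • X i) := by
  intro Y hY
  obtain ⟨φ, hφ⟩ := h (fun i => (l i)⁻¹ • Y i) ⟨fun i hi => by
    have := hY.1 i hi
    rw [Nm_scale, smul_eq_zero_iff_right (pow_ne_zero _ (hl i hi))] at this
    rw [Nm_smul, this, smul_zero], fun j hj i hi => by
      have a := congrArg (fun z => ((l i)⁻¹ * (l j)⁻¹) • z) (hY.2 j hj i hi)
      have h1 := hl j hj
      have h2 := hl i (by omega)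
      simp only [smul_mul_assoc, mul_smul_comm, smul_add, smul_smul] at a ⊢
      convert a using 3 <;> field_simp⟩
  refine ⟨φ, fun i hi => ?_⟩
  have := congrArg (fun z => l i • z) (hφ i hi)
  simpa [smul_smul, hl i hi, smul_sub] using this

lemma rn [FiniteDimensional K E] (f : E →ₗ[K] E) (p : Submodule K E) :
    Module.finrank K (p.map f) + Module.finrank K ↥(p ⊓ LinearMap.ker f) = Module.finrank K p := by
  have := (f.domRestrict p).finrank_range_add_finrank_ker
  rw [LinearMap.range_domRestrict, LinearMap.ker_domRestrict,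
    ← Submodule.finrank_map_subtype_eq p, Submodule.map_comap_subtype] at this
  exact this

lemma fr_le [FiniteDimensional K E] (u : Eˣ) (p q : Submodule K E)
    (h : ∀ x ∈ p, x * u ∈ q) : Module.finrank K p ≤ Module.finrank K q := by
  refine LinearMap.finrank_le_finrank_of_injective
    (f := ((LinearMap.mulRight K (u : E)).domRestrict p).codRestrict q (fun x => h x.1 x.2)) ?_
  intro x y hxy
  exact Subtype.ext ((Units.mul_left_inj u).1 (congrArg Subtype.val hxy))

def Hs (k : ℕ) (X : ℕ → E) (c : ℕ → K) : Submodule K E where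
  carrier := {t | ∀ i < k, t * X i = c i • (X i * t)}
  add_mem' ha hb i hi := by rw [add_mul, ha i hi, hb i hi, mul_add, smul_add]
  zero_mem' i _ := by simp
  smul_mem' a t ht i hi := by rw [smul_mul_assoc, ht i hi, mul_smul_comm, smul_comm]

lemma H_mul {k : ℕ} {X : ℕ → E} {c c' : ℕ → K} {s t : E} (hs : s ∈ Hs k X c) (ht : t ∈ Hs k X c') :
    s * t ∈ Hs k X (c * c') := fun i hi => by
  rw [mul_assoc, ht i hi, mul_smul_comm, ← mul_assoc, hs i hi, smul_mul_assoc, smul_smul,
    mul_assoc, Pi.mul_apply, mul_comm (c i)]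

lemma H_congr {k : ℕ} {X : ℕ → E} {c c' : ℕ → K} {s : E} (hs : s ∈ Hs k X c)
    (h : ∀ i < k, c i = c' i) : s ∈ Hs k X c' := fun i hi => by rw [← h i hi]; exact hs i hi

lemma H_inv {k : ℕ} {X : ℕ → E} {c : ℕ → K} {u : Eˣ} (hs : (u : E) ∈ Hs k X c)
    (h : ∀ i < k, c i ≠ 0) : ((u⁻¹ : Eˣ) : E) ∈ Hs k X c⁻¹ := fun i hi => by
  have := congrArg (fun z => (c i)⁻¹ • ((u⁻¹ : Eˣ) * z * (u⁻¹ : Eˣ) : E)) (hs i hi)
  simp only [← mul_assoc, Units.inv_mul, one_mul, mul_smul_comm, smul_mul_assoc, smul_smul,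
    inv_mul_cancel₀ (h i hi), one_smul, Units.mul_inv_cancel_right] at this
  exact this.symm

lemma H_pow {k : ℕ} {X : ℕ → E} {c : ℕ → K} {s : E} (hs : s ∈ Hs k X c) (n : ℕ) :
    s ^ n ∈ Hs k X (c ^ n) := fun i hi => pow_comm'' (hs i hi) n

theorem step [FiniteDimensional K E] {k : ℕ} {X : ℕ → E} (hR : Rel b r (k + 1) X)
    (hr : ∀ i < k, r i k ≠ 0) (h : Rigid b r (k + 1) X) (U : Eˣ)
    (hU : (U : E) ∈ Hs k X (fun i => r i k)) (hUx : (U : E) * X k = X k * U) :
    Rigid b r k X ∧ Hig b r k X := by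
  set x := X k with hx
  set c : ℕ → K := fun i => r i k with hc
  have hxH : x ∈ Hs k X c := fun i hi => hR.2 k (by omega) i hi
  have hx0 : x ^ (b k + 1) = 0 := hR.1 k (by omega)
  have hUi := H_inv hU hr
  have cU : Commute (U : E) x := hUx
  let ad : E →ₗ[K] E := LinearMap.mulLeft K x - LinearMap.mulRight K x
  have had : ∀ t, ad t = x * t - t * x := fun _ => rfl
  let N : E →ₗ[K] E := NmL K x x (b k)
  have ext : ∀ (Y : ℕ → E) (t : E), Coc b r k X Y → Nm x x (b k) t = 0 →
      (∀ i < k, t * X i + x * Y i = r i k • (Y i * x + X i * t)) →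
      ∃ φ : E, (∀ i < k, Y i = X i * φ - φ * X i) ∧ t = x * φ - φ * x := by
    intro Y t hY ht h3
    obtain ⟨φ, hφ⟩ := h (fun i => if i = k then t else Y i) ⟨fun i hi => by
      by_cases hik : i = k
      · subst hik; simpa using ht
      · simp only [if_neg hik]; exact hY.1 i (by omega), fun j hj i hi => by
        have hik : i ≠ k := by omega
        by_cases hjk : j = k
        · subst hjk; simp only [if_neg hik, if_true]; exact h3 i hi
        · simp only [if_neg hik, if_neg hjk]; exact hY.2 j (by omega) i hi⟩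
    refine ⟨φ, fun i hi => ?_, by simpa using hφ k (by omega)⟩
    have := hφ i (by omega)
    simpa only [if_neg hi.ne] using this
  have e1 : Hs k X c ⊓ LinearMap.ker N ≤ (Hs k X 1).map ad := by
    rintro t ⟨ht, ht'⟩
    obtain ⟨φ, h1, h2⟩ := ext 0 t ⟨fun _ _ => Nm_zero _ _ _, fun _ _ _ _ => by simp⟩ ht'
      (fun i hi => by simpa using ht i hi)
    refine ⟨φ, fun i hi => ?_, h2.symm⟩
    have := h1 i hi
    simp only [Pi.zero_apply, Pi.one_apply, one_smul] at this ⊢
    exact (sub_eq_zero.1 this.symm).symm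
  have e0 : ∀ t : E, N t ∈ LinearMap.ker ad := fun t => by
    rw [LinearMap.mem_ker, had]
    have := Nm_tel x x (b k) t
    rwa [hx0, zero_mul, mul_zero, sub_zero] at this
  have e2 : (Hs k X c).map N ≤ Hs k X (c ^ (b k + 1)) ⊓ LinearMap.ker ad := by
    rintro _ ⟨t, ht, rfl⟩
    refine ⟨fun i hi => ?_, e0 t⟩
    have := Nm_tw (hxH i hi) (b k) t
    rw [ht i hi, sub_self, Nm_zero, sub_eq_zero] at this
    exact this
  have f1 := fr_le U (Hs k X 1) (Hs k X c) (fun t ht => H_congr (H_mul ht hU) (by simp))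
  have f2 := fr_le (U⁻¹ ^ (b k + 1)) (Hs k X (c ^ (b k + 1)) ⊓ LinearMap.ker ad)
    (Hs k X 1 ⊓ LinearMap.ker ad) (fun t ht => ⟨by
      rw [Units.val_pow_eq_pow_val]
      exact H_congr (H_mul ht.1 (H_pow hUi _)) (fun i hi => by
        have := hr i hi
        simp only [Pi.mul_apply, Pi.pow_apply, Pi.inv_apply, Pi.one_apply, hc]
        rw [← mul_pow, mul_inv_cancel₀ this, one_pow]), by
      have h1 : x * t - t * x = 0 := ht.2
      have h2 := (cU.units_inv_left.pow_left (b k + 1)).eq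
      change x * _ - _ * x = 0
      rw [Units.val_pow_eq_pow_val, mul_assoc, h2, ← mul_assoc, ← mul_assoc, ← sub_mul, h1,
        zero_mul]⟩)
  have f3 := rn ad (Hs k X 1)
  have f4 := rn N (Hs k X c)
  have f5 := Submodule.finrank_mono e1
  have surj := Submodule.eq_of_le_of_finrank_le e2 (by omega)
  constructor
  · let A : Module.End K (ℕ → E) :=
      LinearMap.pi fun i => (c i)⁻¹ • ((LinearMap.mulRight K ((U⁻¹ : Eˣ) : E)).comp
        ((LinearMap.mulLeft K x).comp (LinearMap.proj i)))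
    let B : Module.End K (ℕ → E) :=
      LinearMap.pi fun i => (LinearMap.mulRight K (x * (U⁻¹ : Eˣ))).comp (LinearMap.proj i)
    have hA : ∀ Y i, A Y i = (c i)⁻¹ • (x * Y i * (U⁻¹ : Eˣ)) := fun _ _ => rfl
    have hB : ∀ Y i, B Y i = Y i * (x * (U⁻¹ : Eˣ)) := fun _ _ => rfl
    have hAp : ∀ n Y i, (A ^ n) Y i = (c i)⁻¹ ^ n • (x ^ n * Y i * (U⁻¹ : Eˣ) ^ n) := by
      intro n
      induction n with
      | zero => simp
      | succ n ih =>
        intro Y i
        rw [pow_succ', Module.End.mul_apply, hA, ih, pow_succ' x, pow_succ ((U⁻¹ : Eˣ) : E),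
          pow_succ' (c i)⁻¹]
        simp only [mul_smul_comm, smul_mul_assoc, smul_smul, mul_assoc]
    have hBp : ∀ n Y i, (B ^ n) Y i = Y i * (x * (U⁻¹ : Eˣ)) ^ n := by
      intro n
      induction n with
      | zero => simp
      | succ n ih =>
        intro Y i
        rw [pow_succ', Module.End.mul_apply, hB, ih, pow_succ (x * _), mul_assoc]
    have nA : IsNilpotent A := ⟨b k + 1, by ext1 Y; funext i; rw [hAp, hx0]; simp⟩
    have nB : IsNilpotent B := ⟨b k + 1, by
      ext1 Y; funext i; rw [hBp, cU.units_inv_left.symm.mul_pow, hx0]; simp⟩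
    have cAB : Commute A B := by
      ext1 Y; funext i
      simp only [Module.End.mul_apply, hA, hB, smul_mul_assoc, mul_assoc]
      rw [← mul_assoc ((U⁻¹ : Eˣ) : E) x, cU.units_inv_left.eq, mul_assoc]
    obtain ⟨m, hm⟩ := cAB.isNilpotent_sub nA nB
    have coc : ∀ Y, Coc b r k X Y → Coc b r k X ((A - B) Y) := by
      intro Y hY
      refine Coc.sub (Y := A Y) (Z := B Y) ?_ ?_
      · refine hY.conj (c := c⁻¹) (fun i hi => ?_) hUi
        rw [hxH i hi, smul_smul, Pi.inv_apply, inv_mul_cancel₀ (hr i hi), one_smul]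
      · have := hY.conj (p := 1) (w := x * (U⁻¹ : Eˣ)) (c := 1) (by simp)
          (H_congr (H_mul hxH hUi) (fun i hi => mul_inv_cancel₀ (hr i hi)))
        simp only [Pi.one_apply, one_smul, one_mul] at this
        exact this
    have inn : ∀ Y, Coc b r k X Y → Inner k X ((A - B) Y) → Inner k X Y := by
      rintro Y hY ⟨φ, hφ⟩
      have g1 : ∀ i < k, φ * U * X i - r i k • (X i * (φ * U)) = -(x * Y i - Y i * (r i k • x)) := by
        intro i hi
        have := congrArg (fun z : E => r i k • (z * U)) (hφ i hi)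
        simp only [LinearMap.sub_apply, Pi.sub_apply, hA, hB, sub_mul, smul_mul_assoc, mul_assoc,
          Units.inv_mul, mul_one, smul_sub, smul_smul, hc, mul_inv_cancel₀ (hr i hi),
          one_smul] at this
        rw [mul_assoc, hU i hi, mul_smul_comm, mul_smul_comm, this]
        abel
      have g2 : N (φ * U) ∈ (Hs k X c).map N := by
        rw [surj]
        refine ⟨fun i hi => ?_, e0 _⟩
        have := Nm_tw (hxH i hi) (b k) (φ * U)
        rw [g1 i hi, ← zero_sub, Nm_sub, Nm_zero, Nm_ad, smul_pow, hx0] at this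
        simp only [zero_mul, smul_zero, mul_zero, sub_zero, sub_eq_zero] at this
        exact this
      obtain ⟨t, ht, ht'⟩ := g2
      obtain ⟨ψ, h1, -⟩ := ext Y (φ * U - t) hY (by rw [Nm_sub]; exact sub_eq_zero.2 ht'.symm)
        (fun i hi => by
          have a1 := g1 i hi
          have a2 : t * X i = r i k • (X i * t) := ht i hi
          simp only [sub_mul, mul_sub, smul_add, smul_sub, mul_smul_comm] at a1 ⊢
          linear_combination (norm := abel1) a1 - a2)
      exact ⟨ψ, h1⟩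
    have all : ∀ n Y, Coc b r k X Y → Inner k X (((A - B) ^ n) Y) → Inner k X Y := by
      intro n
      induction n with
      | zero => exact fun Y _ h => h
      | succ n ih =>
        intro Y hY h
        rw [pow_succ, Module.End.mul_apply] at h
        exact inn Y hY (ih _ (coc Y hY) h)
    intro Y hY
    exact all m Y hY ⟨0, by simp [hm]⟩
  · have : (U : E) ^ (b k + 1) ∈ (Hs k X c).map N := by
      rw [surj]
      exact ⟨H_pow hU _, sub_eq_zero.2 (cU.pow_left _).eq.symm⟩
    obtain ⟨t, ht, ht'⟩ := this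
    refine ⟨t * ((U⁻¹ : Eˣ) : E) ^ (b k + 1), fun i hi => ?_, ?_⟩
    · rw [H_mul ht (H_pow hUi _) i hi, smul_smul]
      have := hr i hi
      simp only [Pi.mul_apply, Pi.pow_apply, Pi.inv_apply, hc]
      rw [← mul_assoc, ← pow_succ, ← mul_pow, mul_inv_cancel₀ this, one_pow, one_smul]
    · have := Nm_conj (x := x) (p := 1) (w := ((U⁻¹ : Eˣ) : E) ^ (b k + 1)) (c := (1 : K))
        (by simp) (by rw [one_smul]; exact (cU.units_inv_left.pow_left _).eq) (b k) t
      rw [one_mul, one_mul, one_pow, one_smul] at this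
      rw [this]
      change N t * _ = 1
      rw [ht', ← Units.val_pow_eq_pow_val, ← Units.val_pow_eq_pow_val, ← Units.val_mul, inv_pow,
        mul_inv_cancel, Units.val_one]

end field

end Pool.Agent.H.MP_315024_al
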