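import Pool.Agent.H.MP_315024_al.A

namespace Pool.Agent.H.MP_315024_al

open Polynomial

section map
variable {S S' E E' : Type*} [CommRing S] [Ring E] [Algebra S E] [CommRing S'] [Ring E']
  [Algebra S' E'] {b : ℕ → ℕ} {r : ℕ → ℕ → S}

lemma Rel.map {k : ℕ} {X : ℕ → E} (h : Rel b r k X) (f : E →+* E') (g : S → S')
    (hf : ∀ (c : S) (x : E), f (c • x) = g c • f x) :
    Rel b (fun i j => g (r i j)) k (fun i => f (X i)) :=
  ⟨fun i hi => by rw [← map_pow, h.1 i hi, map_zero],
    fun j hj i hi => by rw [← map_mul, h.2 j hj i hi, hf, map_mul]⟩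

end map

variable {K : Type*} [Field K] {n : Type*} [Fintype n] [DecidableEq n] {b : ℕ → ℕ}
  {r : ℕ → ℕ → K}

noncomputable def CM : Matrix n n K →+* Matrix n n K[X] := (Polynomial.C : K →+* K[X]).mapMatrix
noncomputable def ev (e : K) : Matrix n n K[X] →+* Matrix n n K := (evalRingHom e).mapMatrix

lemma ev_CM (e : K) (A : Matrix n n K) : ev e (CM A) = A := by
  ext i j; simp [ev, CM]

lemma ev_smul (e : K) (p : K[X]) (A : Matrix n n K[X]) : ev e (p • A) = p.eval e • ev e A := by
  ext i j; simp [ev]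

lemma CM_smul (c : K) (A : Matrix n n K) : CM (c • A) = Polynomial.C c • CM A := by
  ext i j; simp [CM]

lemma div_X (Z : Matrix n n K[X]) (h : ev 0 Z = 0) : ∃ Z', Z = (X : K[X]) • Z' := by
  refine ⟨Z.map divX, ?_⟩
  ext1 i j
  have h1 : (Z i j).coeff 0 = 0 := by
    rw [coeff_zero_eq_eval_zero]; exact congrFun (congrFun h i) j
  have := X_mul_divX_add (Z i j)
  rw [h1, map_zero, add_zero] at this
  exact this.symm

omit [Fintype n] [DecidableEq n] in
lemma cancel_X (N : ℕ) (Z : Matrix n n K[X]) (h : (X : K[X]) ^ N • Z = 0) : Z = 0 := by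
  ext1 i j
  have : (X : K[X]) ^ N * Z i j = 0 := congrFun (congrFun h i) j
  exact (mul_eq_zero.1 this).resolve_left (pow_ne_zero _ X_ne_zero)

lemma lift {k : ℕ} {A : ℕ → Matrix n n K} (hR : Rel b r k A) (h : Rigid b r k A) (t : ℕ → K[X])
    (ht : ∀ i < k, (t i).eval 0 = 1) (N : ℕ) :
    ∃ U : Matrix n n K[X], ev 0 U = 1 ∧ ∀ i < k, ∃ Y,
      CM (A i) * U - U * (t i • CM (A i)) = (X : K[X]) ^ (N + 1) • Y := by
  have R0 := hR.map CM _ CM_smul
  have R1 := R0.scale t
  have e1 : ∀ i < k, ev 0 (t i • CM (A i)) = A i := fun i hi => by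
    rw [ev_smul, ht i hi, one_smul, ev_CM]
  induction N with
  | zero =>
    refine ⟨1, map_one _, fun i hi => ?_⟩
    rw [zero_add, pow_one]
    apply div_X
    rw [map_sub, mul_one, one_mul, e1 i hi, ev_CM, sub_self]
  | succ N ih =>
    obtain ⟨U, hU, hY⟩ := ih
    choose! Y hY using hY
    obtain ⟨φ, hφ⟩ := h (fun i => ev 0 (Y i)) ⟨fun i hi => by
      have a := Nm_ad (CM (A i)) (t i • CM (A i)) (b i) U
      rw [hY i hi, Nm_smul, R0.1 i hi, R1.1 i hi, zero_mul, mul_zero, sub_zero] at a
      have := congrArg (ev 0) (cancel_X _ _ a)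
      rwa [Nm_map, e1 i hi, ev_CM, map_zero] at this, fun j hj i hi => by
        have hi' : i < k := by omega
        have a : (X : K[X]) ^ (N + 1) • (Y j * (t i • CM (A i)) + CM (A j) * Y i -
            Polynomial.C (r i j) • (Y i * (t j • CM (A j)) + CM (A i) * Y j)) = 0 := by
          have a0 := congrArg (· * U) (R0.2 j hj i hi)
          have a1 := congrArg (U * ·) (R1.2 j hj i hi)
          have b0 := hY i hi'
          have b1 := hY j hj
          simp only at a0 a1
          generalize t i • CM (A i) = P at *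
          generalize t j • CM (A j) = Q at *
          have : (X : K[X]) ^ (N + 1) • (Y j * P + CM (A j) * Y i -
            Polynomial.C (r i j) • (Y i * Q + CM (A i) * Y j)) =
            ((X : K[X]) ^ (N + 1) • Y j) * P + CM (A j) * ((X : K[X]) ^ (N + 1) • Y i) -
            Polynomial.C (r i j) • (((X : K[X]) ^ (N + 1) • Y i) * Q +
              CM (A i) * ((X : K[X]) ^ (N + 1) • Y j)) := by
            simp only [smul_add, smul_sub, smul_mul_assoc, mul_smul_comm,
              smul_comm ((X : K[X]) ^ (N + 1)) (Polynomial.C (r i j))]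
          rw [this, ← b0, ← b1]
          simp only [sub_mul, mul_sub, smul_add, smul_sub, smul_mul_assoc, mul_smul_comm,
            mul_assoc] at a0 a1 ⊢
          linear_combination (norm := abel1) a0 - a1
        have := congrArg (ev 0) (cancel_X _ _ a)
        rw [map_sub, ev_smul, map_zero, sub_eq_zero] at this
        simpa only [map_add, map_mul, e1 i hi', e1 j hj, ev_CM, eval_C] using this⟩
    refine ⟨U - (X : K[X]) ^ (N + 1) • CM φ, by rw [map_sub, ev_smul, hU]; simp, fun i hi => ?_⟩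
    obtain ⟨Z, hZ⟩ := div_X (Y i - (CM (A i) * CM φ - CM φ * (t i • CM (A i)))) (by
      simp only [map_sub, map_mul, e1 i hi, ev_CM]
      exact sub_eq_zero.2 (hφ i hi))
    refine ⟨Z, ?_⟩
    rw [pow_succ _ (N + 1), mul_smul, ← hZ, smul_sub, ← hY i hi]
    generalize t i • CM (A i) = P
    simp only [sub_mul, mul_sub, smul_sub, smul_mul_assoc, mul_smul_comm]
    abel

def Sim (k : ℕ) (A B : ℕ → Matrix n n K) : Prop :=
  ∃ U : (Matrix n n K)ˣ, ∀ i < k, A i * U = U * B i

lemma generic {k : ℕ} {A : ℕ → Matrix n n K} (hR : Rel b r k A) (h : Rigid b r k A)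
    (t : ℕ → K[X]) (ht : ∀ i < k, (t i).eval 0 = 1) :
    ∃ d : K[X], d ≠ 0 ∧ ∀ e, d.eval e ≠ 0 → Sim k A (fun i => (t i).eval e • A i) := by
  let L : Matrix n n K[X] →ₗ[K[X]] (Fin k → Matrix n n K[X]) :=
    LinearMap.pi fun i => LinearMap.mulLeft _ (CM (A i)) - LinearMap.mulRight _ (t i • CM (A i))
  have hL : ∀ U (i : Fin k), L U i = CM (A i) * U - U * (t i • CM (A i)) := fun _ _ => rfl
  obtain ⟨m, hm⟩ := (Ideal.span {(X : K[X])}).exists_pow_inf_eq_pow_smul (LinearMap.range L)
  obtain ⟨U, hU, hY⟩ := lift hR h t ht m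
  choose! Y hY using hY
  have h1 : L U ∈ (Ideal.span {(X : K[X])}) ^ (m + 1) • (⊤ : Submodule K[X] _) ⊓
      LinearMap.range L := by
    refine ⟨?_, U, rfl⟩
    have : L U = (X : K[X]) ^ (m + 1) • fun i : Fin k => Y i := funext fun i => hY i i.2
    rw [this]
    exact Submodule.smul_mem_smul (Ideal.pow_mem_pow (Ideal.mem_span_singleton_self _) _) trivial
  rw [hm (m + 1) (by omega), Nat.add_sub_cancel_left, pow_one] at h1
  have h2 := Submodule.smul_mono le_rfl inf_le_right h1
  rw [LinearMap.range_eq_map, ← Submodule.map_smul''] at h2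
  obtain ⟨W, hW, hW'⟩ := h2
  have h3 : ev 0 W = 0 := by
    refine Submodule.smul_induction_on hW (fun p hp Z _ => ?_) (fun x y hx hy => ?_)
    · obtain ⟨q, rfl⟩ := Ideal.mem_span_singleton'.1 hp
      rw [ev_smul]; simp
    · rw [map_add, hx, hy, add_zero]
  have h4 : L (U - W) = 0 := by rw [map_sub, hW', sub_self]
  have h5 : ∀ e, (U - W).det.eval e = (ev e (U - W)).det := fun e =>
    (evalRingHom e).map_det (U - W)
  refine ⟨(U - W).det, fun h0 => ?_, fun e he => ?_⟩
  · have := h5 0
    rw [h0, map_sub, hU, h3] at this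
    simp at this
  · rw [h5] at he
    obtain ⟨V, hV⟩ := (Matrix.isUnit_iff_isUnit_det _).2 (Ne.isUnit he)
    refine ⟨V, fun i hi => ?_⟩
    have := congrArg (ev e) (congrFun h4 ⟨i, hi⟩)
    rw [hL, map_sub, map_mul, map_mul, ev_smul, ev_CM, ← hV] at this
    exact sub_eq_zero.1 (this.trans (map_zero _))

lemma torus [Infinite K] {k : ℕ} {A : ℕ → Matrix n n K} (hR : Rel b r k A) (h : Rigid b r k A)
    (l : ℕ → K) (hl : ∀ i < k, l i ≠ 0) : Sim k A (fun i => l i • A i) := by
  obtain ⟨d, hd, h1⟩ := generic hR h (fun i => 1 + X * Polynomial.C (l i - 1)) (by simp)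
  obtain ⟨d', hd', h2⟩ := generic (hR.scale l) (h.scale l hl)
    (fun i => 1 + X * Polynomial.C ((l i)⁻¹ - 1)) (by simp)
  have hd'' : d'.comp (1 - X) ≠ 0 := by
    intro h0
    apply hd'
    have := congrArg (fun p : K[X] => p.comp (1 - X)) h0
    simpa [comp_assoc] using this
  obtain ⟨e, he⟩ : ∃ e, (d * d'.comp (1 - X)).eval e ≠ 0 := by
    by_contra hc
    push Not at hc
    exact mul_ne_zero hd hd'' (Polynomial.funext (by simpa using hc))
  rw [eval_mul, mul_ne_zero_iff, eval_comp] at he
  obtain ⟨U, hU⟩ := h1 e he.1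
  obtain ⟨V, hV⟩ := h2 _ he.2
  refine ⟨U * V⁻¹, fun i hi => ?_⟩
  have a1 := hU i hi
  have a2 := hV i hi
  have a3 : (1 + (1 - e) * ((l i)⁻¹ - 1)) * l i = 1 + e * (l i - 1) := by
    have := hl i hi
    field_simp
    ring
  simp only [eval_add, eval_one, eval_mul, eval_X, eval_C, eval_sub, smul_smul, a3] at a1 a2
  rw [Units.val_mul, ← mul_assoc, a1, mul_assoc, mul_assoc, Units.mul_right_inj,
    Units.mul_inv_eq_iff_eq_mul, mul_assoc, a2, Units.inv_mul_cancel_left]

theorem hig_inf [Infinite K] (hr : ∀ j, ∀ i < j, r i j ≠ 0) {A : ℕ → Matrix n n K} (k : ℕ)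
    (hR : Rel b r k A) (h : Rigid b r k A) : ∀ j < k, Hig b r j A := by
  induction k with
  | zero => intro j hj; omega
  | succ k ih =>
    obtain ⟨U, hU⟩ := torus hR h (fun i => if i = k then 1 else (r i k)⁻¹) (fun i hi => by
      split_ifs with h'
      · exact one_ne_zero
      · exact inv_ne_zero (hr k i (by omega)))
    obtain ⟨h1, h2⟩ := step hR (hr k) h U (fun i hi => by
      have := hU i (by omega)
      simp only [if_neg hi.ne] at this
      rw [this, mul_smul_comm, smul_smul, mul_inv_cancel₀ (hr k i hi), one_smul])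
      (by simpa using (hU k (by omega)).symm)
    intro j hj
    rcases Nat.lt_succ_iff_lt_or_eq.1 hj with h' | rfl
    · exact ih hR.mono h1 j h'
    · exact h2

section bc
variable {F : Type*} [Field F] [Algebra K F]

def BC (F : Type*) [Field F] [Algebra K F] : Matrix n n K →+* Matrix n n F :=
  (algebraMap K F).mapMatrix

def lm (l : F →ₗ[K] K) : Matrix n n F →ₗ[K] Matrix n n K := l.mapMatrix

lemma BC_smul (c : K) (A : Matrix n n K) : BC F (c • A) = algebraMap K F c • BC F A := by
  ext i j; simp [BC]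

lemma lm_left (l : F →ₗ[K] K) (A : Matrix n n K) (Z : Matrix n n F) :
    lm l (BC F A * Z) = A * lm l Z := by
  ext i j
  simp [lm, BC, Matrix.mul_apply, ← Algebra.smul_def]

lemma lm_right (l : F →ₗ[K] K) (A : Matrix n n K) (Z : Matrix n n F) :
    lm l (Z * BC F A) = lm l Z * A := by
  ext i j
  simp only [lm, BC, Matrix.mul_apply, LinearMap.mapMatrix_apply, Matrix.map_apply,
    RingHom.mapMatrix_apply, map_sum]
  refine Finset.sum_congr rfl fun x _ => ?_
  rw [mul_comm, ← Algebra.smul_def, map_smul, smul_eq_mul, mul_comm]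

lemma lm_Nm (l : F →ₗ[K] K) (A : Matrix n n K) (m : ℕ) (Z : Matrix n n F) :
    lm l (Nm (BC F A) (BC F A) m Z) = Nm A A m (lm l Z) := by
  induction m with
  | zero => rfl
  | succ m ih => simp only [Nm, map_add, lm_left, ih, ← map_pow, lm_right]

theorem hig (hr : ∀ j, ∀ i < j, r i j ≠ 0) {A : ℕ → Matrix n n K} (k : ℕ)
    (hR : Rel b r k A) (h : Rigid b r k A) : ∀ j < k, Hig b r j A := by
  let F := FractionRing K[X]
  have : Infinite F := Infinite.of_injective _ (IsFractionRing.injective K[X] F)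
  have h1 : Rigid b (fun i j => algebraMap K F (r i j)) k (fun i => BC F (A i)) := by
    intro Y hY
    classical
    let β := Module.Free.chooseBasis K F
    have : ∀ a, Inner k A (fun i => lm (β.coord a) (Y i)) := fun a => h _
      ⟨fun i hi => by rw [← lm_Nm, hY.1 i hi, map_zero], fun j hj i hi => by
        have := congrArg (lm (β.coord a)) (hY.2 j hj i hi)
        simpa only [algebraMap_smul, map_add, map_smul, lm_left, lm_right] using this⟩
    choose φ hφ using this
    let s := (Finset.range k).biUnion fun i => Finset.univ.biUnion fun p : n × n =>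
      (β.repr (Y i p.1 p.2)).support
    refine ⟨∑ a ∈ s, β a • BC F (φ a), fun i hi => ?_⟩
    have e : Y i = ∑ a ∈ s, β a • BC F (lm (β.coord a) (Y i)) := by
      ext p q
      rw [Matrix.sum_apply]
      conv_lhs => rw [← β.linearCombination_repr (Y i p q), Finsupp.linearCombination_apply]
      rw [Finsupp.sum_of_support_subset (s := s) _ (fun a ha => by
        simp only [s, Finset.mem_biUnion, Finset.mem_range, Finset.mem_univ, true_and]
        exact ⟨i, hi, (p, q), ha⟩) _ (by simp)]
      refine Finset.sum_congr rfl fun a _ => ?_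
      simp [lm, BC, Algebra.smul_def, mul_comm]
    rw [e, Finset.mul_sum, Finset.sum_mul, ← Finset.sum_sub_distrib]
    refine Finset.sum_congr rfl fun a _ => ?_
    have := hφ a i hi
    simp only at this
    rw [this, map_sub, map_mul, map_mul, smul_sub, mul_smul_comm, smul_mul_assoc]
  intro j hj
  obtain ⟨t, ht, ht'⟩ := hig_inf (fun j i hi => (_root_.map_ne_zero _).2 (hr j i hi)) k
    (hR.map (BC F) _ BC_smul) h1 j hj
  obtain ⟨l, hl⟩ : ∃ l : F →ₗ[K] K, l 1 = 1 := by
    obtain ⟨l, hl⟩ := (Algebra.linearMap K F).exists_leftInverse_of_injective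
      (LinearMap.ker_eq_bot.2 (algebraMap K F).injective)
    exact ⟨l, by simpa using LinearMap.congr_fun hl 1⟩
  refine ⟨lm l t, fun i hi => ?_, ?_⟩
  · have := congrArg (lm l) (ht i hi)
    simpa only [← map_pow, algebraMap_smul, map_smul, lm_left, lm_right] using this
  · rw [← lm_Nm, ht']
    ext p q
    by_cases hpq : p = q <;> simp [lm, Matrix.one_apply, hpq, hl]

end bc

end Pool.Agent.H.MP_315024_al
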